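import Mathlib

/-!
Packing and covering densities of convex bodies in dimension `d`, as in the problem file.
-/

set_option autoImplicit false

open MeasureTheory Filter Metric Set
open scoped ENNReal

noncomputable section

namespace Pool.Agent.Lib.MP_fb520c_co.Dim

/-- Euclidean space of dimension `d`. -/
abbrev Space (d : ℕ) : Type := EuclideanSpace ℝ (Fin d)

variable {d : ℕ}

/-- A convex body: a compact convex set with nonempty interior. -/
def IsConvexBody (C : Set (Space d)) : Prop :=
  IsCompact C ∧ Convex ℝ C ∧ (interior C).Nonempty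

/-- `C` is symmetric with respect to some point `c`. -/
def IsCentrallySymmetric (C : Set (Space d)) : Prop :=
  ∃ c : Space d, ∀ x ∈ C, c + c - x ∈ C

/-- The total volume of the members of `𝒜` that lie in the ball of radius `r` about the origin,
divided by the volume of that ball. -/
def ratio (𝒜 : Set (Set (Space d))) (r : ℝ) : ℝ≥0∞ :=
  (∑' A : {A : Set (Space d) // A ∈ 𝒜 ∧ A ⊆ closedBall 0 r}, volume A.1) /
    volume (closedBall (0 : Space d) r)

/-- The upper density of an arrangement. -/
def upperDensity (𝒜 : Set (Set (Space d))) : ℝ≥0∞ := limsup (ratio 𝒜) atTop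

/-- The lower density of an arrangement. -/
def lowerDensity (𝒜 : Set (Set (Space d))) : ℝ≥0∞ := liminf (ratio 𝒜) atTop

/-- Every member of `𝒜` is a congruent copy of `C`. -/
def IsCongruentFamily (C : Set (Space d)) (𝒜 : Set (Set (Space d))) : Prop :=
  ∀ A ∈ 𝒜, ∃ g : Space d ≃ᵢ Space d, A = g '' C

/-- The members of `𝒜` have pairwise disjoint interiors. -/
def IsPacking (𝒜 : Set (Set (Space d))) : Prop :=
  𝒜.Pairwise fun A B => Disjoint (interior A) (interior B)

/-- The members of `𝒜` cover the space. -/
def IsCovering (𝒜 : Set (Set (Space d))) : Prop := ⋃₀ 𝒜 = univ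

/-- The packing density `δ(C)`. -/
def packingDensity (C : Set (Space d)) : ℝ :=
  (⨆ (𝒜 : Set (Set (Space d))) (_ : IsCongruentFamily C 𝒜 ∧ IsPacking 𝒜), upperDensity 𝒜).toReal

/-- The covering density `θ(C)`. -/
def coveringDensity (C : Set (Space d)) : ℝ :=
  (⨅ (𝒜 : Set (Set (Space d))) (_ : IsCongruentFamily C 𝒜 ∧ IsCovering 𝒜), lowerDensity 𝒜).toReal

/-- The set `Ω_d` of pairs `(δ(C), θ(C))`, `C` a convex body in dimension `d`. -/
def omega (d : ℕ) : Set (ℝ × ℝ) :=
  {p | ∃ C : Set (Space d), IsConvexBody C ∧ p = (packingDensity C, coveringDensity C)}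

/-- The set `Ω_d*` of pairs `(δ(C), θ(C))`, `C` a centrally symmetric convex body in dimension
`d`. -/
def omegaStar (d : ℕ) : Set (ℝ × ℝ) :=
  {p | ∃ C : Set (Space d), IsConvexBody C ∧ IsCentrallySymmetric C ∧
    p = (packingDensity C, coveringDensity C)}

end Pool.Agent.Lib.MP_fb520c_co.Dim
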