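import Pool.Agent.Lib.MP_fb520c_co.Top.DefsD
import Pool.Agent.Lib.MP_fb520c_co.Dent.Glue
import Pool.Agent.Lib.MP_fb520c_co.End.B1
import Pool.Agent.Lib.MP_fb520c_co.End.B2

/-! The two end bodies and the empty quadrant give non-convexity in dimension two. -/

set_option autoImplicit false

namespace Pool.Agent.Lib.MP_fb520c_co

theorem omegaStar_two : Dim.omegaStar 2 = omegaStar := rfl

theorem not_convex_two {X Y : ℝ} (hX : 0.90309932921 ≤ X) (hY : Y ≤ 1.1910988006)
    (h : Empty2 X Y) : ¬Convex ℝ (Dim.omegaStar 2) := by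
  rw [omegaStar_two]
  refine not_convex_of body1 body2 (s := 0.515) (by norm_num) (by norm_num) ?_ ?_ h
  · refine lt_of_lt_of_le ?_ hX
    norm_num
  · refine hY.trans ?_
    norm_num

end Pool.Agent.Lib.MP_fb520c_co
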